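import Pool.Agent.H62.STK.ZX

/-!
# Zooming: differences of positions
-/

set_option autoImplicit false

namespace Pool.STK

open Finset Real MeasureTheory
open Pool.Agent.H49.Ent Pool.Agent.H32.Dense

namespace Z2

theorem dbl_law_is {Ω β : Type} [Fintype Ω] {p : Ω → ℝ} (hp : IsLaw p) (b : Ω → β) :
    IsLaw (dbl p b) :=
  ⟨dbl_nonneg hp.nonneg, by rw [(dbl_fst (b := b) hp.nonneg).sum, hp.sum_one]⟩

/-- Differences of floors of translates. -/
theorem floor_diff (A B c : ℝ) :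
    |((⌊B - c⌋ - ⌊A - c⌋ : ℤ) : ℝ) - ((⌊B⌋ - ⌊A⌋ : ℤ) : ℝ)| ≤ 2 := by
  have h1 := Int.floor_le A
  have h2 := Int.lt_floor_add_one A
  have h3 := Int.floor_le B
  have h4 := Int.lt_floor_add_one B
  have h5 := Int.floor_le (A - c)
  have h6 := Int.lt_floor_add_one (A - c)
  have h7 := Int.floor_le (B - c)
  have h8 := Int.lt_floor_add_one (B - c)
  rw [abs_le]
  push_cast
  constructor <;> linarith

end Z2

open ZX Z2

theorem z2_thm : Z2Stmt := by
  intro m Ω ζ _ p u d Z hp i j t _ _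
  have key : ∀ w : Ω × Ω, 0 < dbl p (fun ω => (Ln u d i ω, Z ω)) w → ∀ k : Fin m,
      |(((Xp (zo i u) (zo i d) t j w.2 - Xp (zo i u) (zo i d) t j w.1) k : ℤ) : ℝ) -
        (((Xp u d t (i + j) w.2 - Xp u d t (i + j) w.1) k : ℤ) : ℝ)| ≤ 2 := by
    intro w hw k
    have hb := dbl_eq hp.nonneg hw
    have hL : Ln u d i w.1 = Ln u d i w.2 := (Prod.ext_iff.mp hb).1
    rw [Pi.sub_apply, Pi.sub_apply, zoom_eq, zoom_eq, pos_eq, pos_eq, hL]
    exact floor_diff _ _ _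
  refine CH_le_round (dbl_law_is hp _) _ _ _ ?_
  intro w w' hw hw' _ hY k
  have h1 := key w hw k
  have h2 := key w' hw' k
  have h3 := congrFun hY k
  rw [h3] at h1
  rw [abs_le] at h1 h2 ⊢
  push_cast at h1 h2 ⊢
  constructor <;> linarith [h1.1, h1.2, h2.1, h2.2]

end Pool.STK
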