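import Pool.Agent.H90.STK.Stmts

/-!
# Zooming: positions
-/

set_option autoImplicit false

namespace Pool.STK

open Finset Real MeasureTheory
open Pool.Agent.H49.Ent Pool.Agent.H32.Dense

namespace ZX

/-- Comparison of conditional entropies of two integer vectors when the second one and the
condition fix the first one up to `49`. -/
theorem CH_le_round {Ω S : Type} [Fintype Ω] {m : ℕ} {p : Ω → ℝ} (hp : IsLaw p)
    (X Y : Ω → Fin m → ℤ) (W : Ω → S)
    (h : ∀ ω ω', 0 < p ω → 0 < p ω' → W ω = W ω' → Y ω = Y ω' →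
      ∀ k, |((X ω k - X ω' k : ℤ) : ℝ)| ≤ 49) :
    CH p X W ≤ CH p Y W + cc m := by
  have h1 := CH_le_add hp.nonneg X Y W
  have h2 := CH_le_vec hp.nonneg hp.sum_one X (fun ω => (Y ω, W ω)) (fun _ => 49)
    (fun ω ω' a b hh k => h ω ω' a b (Prod.ext_iff.mp hh).2 (Prod.ext_iff.mp hh).1 k)
  rw [Ex_const hp.sum_one] at h2
  have h3 : (m : ℝ) * Real.log (2 * 49 + 1) ≤ cc m := by
    unfold cc
    refine mul_le_mul_of_nonneg_left (Real.log_le_log (by norm_num) (by norm_num)) (by positivity)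
  linarith

/-- Floors of translates. -/
theorem floor_sub {A B c : ℝ} (h : ⌊A⌋ = ⌊B⌋) : |((⌊A - c⌋ - ⌊B - c⌋ : ℤ) : ℝ)| ≤ 2 := by
  have h1 := Int.floor_le A
  have h2 := Int.lt_floor_add_one A
  have h3 := Int.floor_le B
  have h4 := Int.lt_floor_add_one B
  have h5 := Int.floor_le (A - c)
  have h6 := Int.lt_floor_add_one (A - c)
  have h7 := Int.floor_le (B - c)
  have h8 := Int.lt_floor_add_one (B - c)
  rw [h] at h1 h2
  rw [abs_le]
  push_cast
  constructor <;> linarith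

/-- The zoomed position. -/
theorem zoom_eq {Ω : Type} {m : ℕ} (u d : Ω → Fin m → ℝ) (i j : ℕ) (t : ℝ) (ω : Ω) (k : Fin m) :
    Xp (zo i u) (zo i d) t j ω k = ⌊2 ^ (i + j) * (u ω k + t * d ω k) -
      2 ^ j * (((Ln u d i ω).1 k : ℝ) + t * ((Ln u d i ω).2 k : ℝ))⌋ := by
  have : Xp (zo i u) (zo i d) t j ω k =
      ⌊(2 : ℝ) ^ j * (Int.fract (2 ^ i * u ω k) + t * Int.fract (2 ^ i * d ω k))⌋ := rfl
  rw [this]
  congr 1
  have e1 : ((Ln u d i ω).1 k : ℝ) = (⌊2 ^ i * u ω k⌋ : ℝ) := rfl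
  have e2 : ((Ln u d i ω).2 k : ℝ) = (⌊2 ^ i * d ω k⌋ : ℝ) := rfl
  rw [e1, e2, Int.fract, Int.fract, pow_add]
  ring

/-- The position. -/
theorem pos_eq {Ω : Type} {m : ℕ} (u d : Ω → Fin m → ℝ) (j : ℕ) (t : ℝ) (ω : Ω) (k : Fin m) :
    Xp u d t j ω k = ⌊2 ^ j * (u ω k + t * d ω k)⌋ := rfl

end ZX

open ZX

theorem zx_thm : ZXStmt := by
  intro m Ω ζ _ p u d Z hp i j t _ _
  rw [abs_le]
  constructor
  · have h := CH_le_round hp (Xp u d t (i + j)) (Xp (zo i u) (zo i d) t j)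
      (fun ω => (Ln u d i ω, Z ω)) (by
        intro ω ω' _ _ hW hY k
        have hL : Ln u d i ω = Ln u d i ω' := (Prod.ext_iff.mp hW).1
        have hk := congrFun hY k
        rw [zoom_eq, zoom_eq, hL] at hk
        have h2 := floor_sub (c := -(2 ^ j * (((Ln u d i ω').1 k : ℝ) +
          t * ((Ln u d i ω').2 k : ℝ)))) hk
        rw [sub_neg_eq_add, sub_neg_eq_add, sub_add_cancel, sub_add_cancel] at h2
        rw [pos_eq, pos_eq]
        linarith)
    linarith
  · have h := CH_le_round hp (Xp (zo i u) (zo i d) t j) (Xp u d t (i + j))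
      (fun ω => (Ln u d i ω, Z ω)) (by
        intro ω ω' _ _ hW hY k
        have hL : Ln u d i ω = Ln u d i ω' := (Prod.ext_iff.mp hW).1
        have hk := congrFun hY k
        rw [pos_eq, pos_eq] at hk
        have h2 := floor_sub (c := (2 ^ j * (((Ln u d i ω').1 k : ℝ) +
          t * ((Ln u d i ω').2 k : ℝ)))) hk
        rw [zoom_eq, zoom_eq, hL]
        linarith)
    linarith

end Pool.STK
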